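import Pool.Agent.H18.BG2

set_option autoImplicit false

namespace Pool.Agent.Results.MP_cc0654_lc.CH

open Set Filter TopologicalSpace

/-- `ω`-cover of `X` by sets with the property `O` -/
def Om {X : Type} (O : Set X → Prop) (𝒰 : Set (Set X)) : Prop :=
  (∀ U ∈ 𝒰, O U) ∧ ⋃₀ 𝒰 = univ ∧ univ ∉ 𝒰 ∧ ∀ F : Set X, F.Finite → ∃ U ∈ 𝒰, F ⊆ U

/-- `γ`-cover of `X` by sets with the property `O` -/
def Ga {X : Type} (O : Set X → Prop) (𝒰 : Set (Set X)) : Prop :=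
  (∀ U ∈ 𝒰, O U) ∧ ⋃₀ 𝒰 = univ ∧ 𝒰.Infinite ∧ ∀ x, {U | U ∈ 𝒰 ∧ x ∉ U}.Finite

def S1 {X : Type} (A B : Set (Set X) → Prop) : Prop :=
  ∀ 𝒰 : ℕ → Set (Set X), (∀ n, A (𝒰 n)) → ∃ U : ℕ → Set X, (∀ n, U n ∈ 𝒰 n) ∧ B (range U)

/-- countable `ω`-covers by Borel sets -/
def BΩ (X : Type) [TopologicalSpace X] (𝒰 : Set (Set X)) : Prop :=
  𝒰.Countable ∧ Om (@MeasurableSet X (borel X)) 𝒰

/-- countable `γ`-covers by Borel sets -/
def BΓ (X : Type) [TopologicalSpace X] (𝒰 : Set (Set X)) : Prop :=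
  𝒰.Countable ∧ Ga (@MeasurableSet X (borel X)) 𝒰

lemma om_count {Z : Type} [TopologicalSpace Z] [SecondCountableTopology Z] {𝒰 : Set (Set Z)}
    (h : Om IsOpen 𝒰) : ∃ 𝒱 ⊆ 𝒰, BΩ Z 𝒱 := by
  let S : Set (Set (Set Z)) := {s | (s.Finite ∧ s ⊆ countableBasis Z) ∧ ∃ u ∈ 𝒰, ⋃₀ s ⊆ u}
  have hS : S.Countable :=
    (countable_setOf_finite_subset (countable_countableBasis Z)).mono fun s hs => hs.1
  have : ∀ s : S, ∃ u ∈ 𝒰, ⋃₀ s.1 ⊆ u := fun s => s.2.2
  choose u u1 u2 using this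
  haveI := hS.to_subtype
  have hs : range u ⊆ 𝒰 := by rintro _ ⟨s, rfl⟩; exact u1 s
  have om : ∀ F : Set Z, F.Finite → ∃ v ∈ range u, F ⊆ v := by
    intro F hF
    obtain ⟨v, v1, v2⟩ := h.2.2.2 F hF
    have : ∀ x : F, ∃ b ∈ countableBasis Z, x.1 ∈ b ∧ b ⊆ v := fun x =>
      (isBasis_countableBasis Z).exists_subset_of_mem_open (v2 x.2) (h.1 v v1)
    choose b b1 b2 b3 using this
    haveI := hF.to_subtype
    refine ⟨u ⟨range b, ⟨finite_range b, by rintro _ ⟨x, rfl⟩; exact b1 x⟩, v, v1, ?_⟩,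
      mem_range_self _, fun x hx => u2 _ ⟨_, mem_range_self ⟨x, hx⟩, b2 _⟩⟩
    rintro z ⟨_, ⟨x, rfl⟩, t⟩
    exact b3 x t
  refine ⟨range u, hs, countable_range u, fun U hU =>
    MeasurableSpace.measurableSet_generateFrom (h.1 U (hs hU)), eq_univ_of_forall fun x => ?_,
    fun t => h.2.2.1 (hs t), om⟩
  obtain ⟨v, v1, v2⟩ := om {x} (finite_singleton x)
  exact ⟨v, v1, v2 rfl⟩

/-- Under CH some subgroup of `ℤ^ℕ` of size continuum satisfies `S1(B_Ω,B_Γ)` and `S1(Ω,Γ)`. -/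
theorem result (hCH : Cardinal.continuum.{0} = Cardinal.aleph 1) :
    ∃ G : AddSubgroup (ℕ → ℤ), Cardinal.mk G = Cardinal.continuum ∧
      S1 (BΩ G) (BΓ G) ∧ S1 (X := G) (Om IsOpen) (Ga IsOpen) := by
  obtain ⟨X, x1, x2⟩ := Pool.Agent.H18.BG.main hCH
  let G := (Pool.Agent.H18.BG.Sp X).toAddSubgroup
  have a : S1 (BΩ G) (BΓ G) := by
    intro 𝒰 hU
    choose u hu using fun n => (hU n).1.exists_eq_range (by
      obtain ⟨U, t, -⟩ := (hU n).2.2.2.2 ∅ finite_empty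
      exact ⟨U, t⟩)
    have mem : ∀ n m, u n m ∈ 𝒰 n := fun n m => hu n ▸ mem_range_self m
    have : ∀ n m, ∃ V : Set (ℕ → ℤ), MeasurableSet V ∧ Subtype.val ⁻¹' V = u n m := by
      intro n m
      have := (hU n).2.1 _ (mem n m)
      rw [show borel G = (borel (ℕ → ℤ)).comap (Subtype.val : G → ℕ → ℤ) from
        borel_comap (f := (Subtype.val : G → ℕ → ℤ)), ← BorelSpace.measurable_eq] at this
      exact this
    choose V v1 v2 using this
    obtain ⟨g, hg⟩ := x2 V v1 fun n F f1 f2 => by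
      obtain ⟨U, t, s⟩ := (hU n).2.2.2.2 (Subtype.val ⁻¹' F)
        (f1.preimage Subtype.val_injective.injOn)
      obtain ⟨m, rfl⟩ : U ∈ range (u n) := hu n ▸ t
      rw [← v2] at s
      exact ⟨m, fun x hx => s (show (⟨x, f2 hx⟩ : G) ∈ Subtype.val ⁻¹' F from hx)⟩
    have ev : ∀ x : G, {n | x ∉ u n (g n)}.Finite := fun x => by
      have := hg x.1 x.2
      rw [← Nat.cofinite_eq_atTop, eventually_cofinite] at this
      simpa only [← v2, mem_preimage] using this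
    refine ⟨fun n => u n (g n), fun n => mem n _, countable_range _, ?_,
      eq_univ_of_forall fun x => ?_, fun t => ?_, fun x => ((ev x).image fun n => u n (g n)).subset ?_⟩
    · rintro _ ⟨n, rfl⟩
      exact (hU n).2.1 _ (mem n _)
    · obtain ⟨n, hn⟩ := (ev x).exists_notMem
      exact ⟨_, ⟨n, rfl⟩, not_not.mp hn⟩
    · have : ∀ U : range fun n => u n (g n), ∃ x, x ∉ U.1 := by
        rintro ⟨_, n, rfl⟩
        by_contra s
        push Not at s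
        exact (hU n).2.2.2.1 ((eq_univ_of_forall s : u n (g n) = univ) ▸ mem n _)
      choose y hy using this
      haveI := t.to_subtype
      obtain ⟨n, hn⟩ := (finite_iUnion fun U => ev (y U)).exists_notMem
      exact hn (mem_iUnion.mpr ⟨⟨_, n, rfl⟩, hy ⟨_, n, rfl⟩⟩)
    · rintro _ ⟨⟨n, rfl⟩, s⟩
      exact ⟨n, s, rfl⟩
  refine ⟨G, le_antisymm ((Cardinal.mk_set_le (G : Set (ℕ → ℤ))).trans (by simp)) (x1.trans ?_), a,
    fun 𝒰 hU => ?_⟩
  · exact Cardinal.mk_le_of_injective (f := fun x : X => (⟨Pool.Agent.H18.BG.em x.1,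
      Submodule.subset_span ⟨x.1, x.2, rfl⟩⟩ : G)) fun x y t =>
        Subtype.ext (Pool.Agent.H18.BG.em_inj (congrArg Subtype.val t))
  · haveI : SecondCountableTopology G :=
      TopologicalSpace.Subtype.secondCountableTopology (G : Set (ℕ → ℤ))
    choose 𝒱 v1 v2 using fun n => om_count (hU n)
    obtain ⟨U, u1, -, -, u2⟩ := a 𝒱 v2
    refine ⟨U, fun n => v1 n (u1 n), ?_, u2⟩
    rintro _ ⟨n, rfl⟩
    exact (hU n).1 _ (v1 n (u1 n))

end Pool.Agent.Results.MP_cc0654_lc.CH
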